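import Pool.Agent.N162.HN.Stm
import Pool.Agent.N162.HS.Line
import Pool.Agent.N162.CV.Val

/-!
The configuration of points and curves given by a cycle with null trace, any dimension
(project HN of helper162; port of the files CV/Pts, CV/Val, CW/MkConf of helper162).
-/

set_option autoImplicit false

open FF Pool.Agent.W603.LV Pool.Agent.Y184.NT Pool.Agent.N162.BC MvPolynomial IntermediateField

namespace Pool.Agent.N80.HN

open Pool.Agent.N162.HN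
open Pool.Agent.N162.CV (PRel MonicY ge_const_zero ge_of_sub ge_aeval_sub ge_aeval eval_zero_of
  ge_of_eval aeval_smul)


section

variable {n : ℕ} {Ω E : Type} [Field Ω] [Field E] [Algebra Ω E]

theorem Lam_of_subset (κ : (Fin (n + 2) → Ω) → Ω) (P : MvPolynomial (Fin (n + 2)) Ω)
    (c : (Fin (n + 2) → Ω) →₀ ℤ) {Q : Finset (Fin (n + 2) → Ω)} (h : ∀ p, c p ≠ 0 → p ∈ Q) :
    Lam κ P c = ∑ p ∈ Q, (c p : Ω) * (κ p * eval p P) := by
  unfold Lam
  refine Finset.sum_subset (fun p hp => h p (Finsupp.mem_support_iff.1 hp)) fun p _ hp => ?_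
  rw [Finsupp.notMem_support_iff.1 hp, Int.cast_zero, zero_mul]

theorem at_pr {v : Place Ω E} {X : Fin (n + 2) → E} {p : Fin (n + 2) → Ω} (h : At v X p) (t : Ω)
    (i : Fin 2) : Ge v 1 (pr (algebraMap Ω E t) X i - algebraMap Ω E (pr t p i)) := by
  refine Fin.cases ?_ (fun i => ?_) i
  · exact h 1
  · fin_cases i
    change Ge v 1 (∑ l : Fin n, (algebraMap Ω E t) ^ (l : ℕ) * X l.succ.succ -
      algebraMap Ω E (∑ l : Fin n, t ^ (l : ℕ) * p l.succ.succ))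
    rw [map_sum, ← Finset.sum_sub_distrib]
    refine Ge.sum _ _ fun l _ => ?_
    have h1 := (Ge.const (P := v) (t ^ (l : ℕ))).mul (h l.succ.succ)
    rw [zero_add] at h1
    convert h1 using 1
    rw [map_mul, map_pow]
    ring

theorem exists_form (t : Ω) (m : ℕ) (P : MvPolynomial (Fin 2) Ω) (hP : P.totalDegree ≤ m) :
    ∃ Q : MvPolynomial (Fin (n + 2)) Ω, Q.IsHomogeneous m ∧
      ∀ (E : Type) [Field E] [Algebra Ω E] (p : Fin (n + 2) → E), p 0 = 1 →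
        aeval p Q = aeval (pr (algebraMap Ω E t) p) P := by
  classical
  refine ⟨∑ e ∈ P.support, C (P.coeff e) * (X 1 ^ e 0 *
    (∑ l : Fin n, C (t ^ (l : ℕ)) * X l.succ.succ) ^ e 1 * X 0 ^ (m - e 0 - e 1)), ?_, ?_⟩
  · refine IsHomogeneous.sum _ _ _ fun e he => ?_
    have h1 : e 0 + e 1 ≤ m := by
      have h2 := le_totalDegree he
      rw [Finsupp.sum_fintype _ _ (fun _ => rfl), Fin.sum_univ_two] at h2
      omega
    have h3 : (X 1 ^ e 0 * (∑ l : Fin n, C (t ^ (l : ℕ)) * X l.succ.succ) ^ e 1 *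
        X 0 ^ (m - e 0 - e 1) :
        MvPolynomial (Fin (n + 2)) Ω).IsHomogeneous (1 * e 0 + 1 * e 1 + 1 * (m - e 0 - e 1)) := by
      refine ((isHomogeneous_X _ _).pow _ |>.mul
        ((IsHomogeneous.sum _ _ _ fun l _ => ?_).pow _)).mul ((isHomogeneous_X _ _).pow _)
      have h4 := (isHomogeneous_C (Fin (n + 2)) (t ^ (l : ℕ))).mul
        (isHomogeneous_X Ω (l.succ.succ : Fin (n + 2)))
      rwa [zero_add] at h4
    have h5 := (isHomogeneous_C (Fin (n + 2)) (P.coeff e)).mul h3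
    have h6 : 0 + (1 * e 0 + 1 * e 1 + 1 * (m - e 0 - e 1)) = m := by omega
    rwa [h6] at h5
  · intro E _ _ p hp
    rw [map_sum]
    conv_rhs => rw [P.as_sum, map_sum]
    refine Finset.sum_congr rfl fun e _ => ?_
    rw [aeval_monomial, Finsupp.prod_fintype _ _ (fun i => pow_zero _), Fin.prod_univ_two]
    simp [pr, hp]

theorem relPrime_of_not_dvd {G B : MvPolynomial (Fin 2) Ω} (hG : Irreducible G) (h : ¬ G ∣ B) :
    IsRelPrime G B := by
  intro D hD hD'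
  by_contra hu
  apply h
  rcases hG.dvd_iff.1 hD with h1 | h1
  · exact absurd h1 hu
  · exact h1.dvd.trans hD'

theorem good_ord {X : Fin (n + 2) → E} (hX : Good Ω X) {Q : MvPolynomial (Fin (n + 2)) Ω} {d : ℕ}
    (hQ : Q.IsHomogeneous d) (v : Place Ω E) (hv : v.ord (X 1) < 0) :
    Ge v 0 (aeval X Q / X 1 ^ d) := by
  have h0 : X 1 ≠ 0 := by
    intro h
    rw [h, v.ord_zero] at hv
    omega
  have h1 := aeval_smul hQ (X 1) (fun l => X l / X 1)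
  have h2 : (fun l => X 1 * (X l / X 1)) = X := by
    funext l
    rw [mul_div_cancel₀ _ h0]
  rw [h2] at h1
  rw [h1, mul_div_cancel_left₀ _ (pow_ne_zero _ h0)]
  exact ge_aeval (hX.inf v hv) _

variable [Algebra ℂ Ω]

theorem aeval_eq (p : Fin (n + 2) → Ω) (F : MvPolynomial (Fin (n + 2)) ℂ) :
    aeval p F = eval p (map (algebraMap ℂ Ω) F) := by
  rw [eval_map, aeval_def]

theorem good_zero {X : Fin (n + 2) → E} (hX : Good Ω X) {v : Place Ω E} {p : Fin (n + 2) → Ω}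
    (h : At v X p) : p 0 = 1 := by
  have h1 := h 0
  rw [hX.one, ← map_one (algebraMap Ω E), ← map_sub] at h1
  exact (sub_eq_zero.1 (ge_const_zero h1)).symm

theorem cmp_fin {X : Fin (n + 2) → E} (hX : Good Ω X) (F : MvPolynomial (Fin (n + 2)) ℂ)
    (v : Place Ω E) (hv : Ge v 0 (X 1)) : Ge v 0 (cmp Ω F X) :=
  ge_aeval (hX.fin v hv) _

theorem cmp_inf {X : Fin (n + 2) → E} (hX : Good Ω X) {F : MvPolynomial (Fin (n + 2)) ℂ} {d : ℕ}
    (hF : F.IsHomogeneous d) (v : Place Ω E) (hv : v.ord (X 1) < 0) :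
    Ge v 0 (cmp Ω F X / X 1 ^ d) :=
  good_ord hX (hF.map (algebraMap ℂ Ω)) v hv

theorem cmp_at {X : Fin (n + 2) → E} {F : MvPolynomial (Fin (n + 2)) ℂ} {v : Place Ω E}
    {p : Fin (n + 2) → Ω} (h : At v X p) : aeval p F = 0 ↔ Ge v 1 (cmp Ω F X) := by
  rw [aeval_eq]
  exact ⟨fun h1 => ge_of_eval h h1, fun h1 => eval_zero_of h h1⟩

end

section

variable {n : ℕ} {K Ω : Type} [Field K] [Algebra ℂ K] [Field Ω] [Algebra ℂ Ω]

theorem pt_inj {x : Fin (n + 2) → K} (hgen : IntermediateField.adjoin ℂ (Set.range x) = ⊤) :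
    Function.Injective (pt x : (K →ₐ[ℂ] Ω) → Fin (n + 2) → Ω) := fun _ _ h =>
  Pool.Agent.N162.HS.hom_ext hgen fun j => congrFun h j

/-- the points as an embedding of sets -/
def emb (Ω : Type) [Field Ω] [Algebra ℂ Ω] {x : Fin (n + 2) → K}
    (hgen : IntermediateField.adjoin ℂ (Set.range x) = ⊤) : (K →ₐ[ℂ] Ω) ↪ (Fin (n + 2) → Ω) :=
  ⟨pt x, pt_inj hgen⟩

theorem pt_aeval (x : Fin (n + 2) → K) (σ : K →ₐ[ℂ] Ω) (G : MvPolynomial (Fin (n + 2)) ℂ) :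
    aeval (pt x σ) G = σ (aeval x G) :=
  (MvPolynomial.comp_aeval_apply (φ := σ) x G).symm

theorem emb_apply {x : Fin (n + 2) → K} (hgen : IntermediateField.adjoin ℂ (Set.range x) = ⊤)
    (f : (K →ₐ[ℂ] Ω) →₀ ℤ) (σ : K →ₐ[ℂ] Ω) : f.embDomain (emb Ω hgen) (pt x σ) = f σ :=
  Finsupp.embDomain_apply_self (emb Ω hgen) f σ

theorem emb_ne {x : Fin (n + 2) → K} (hgen : IntermediateField.adjoin ℂ (Set.range x) = ⊤)
    (f : (K →ₐ[ℂ] Ω) →₀ ℤ) {p : Fin (n + 2) → Ω} (h : f.embDomain (emb Ω hgen) p ≠ 0) :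
    ∃ σ : K →ₐ[ℂ] Ω, p = pt x σ ∧ f σ ≠ 0 := by
  have h1 : p ∈ (f.embDomain (emb Ω hgen)).support := Finsupp.mem_support_iff.2 h
  rw [Finsupp.support_embDomain, Finset.mem_map] at h1
  obtain ⟨σ, hσ, rfl⟩ := h1
  exact ⟨σ, rfl, Finsupp.mem_support_iff.1 hσ⟩

theorem exists_idx : ∀ (m : ℕ) (e : Fin (n + 2) →₀ ℕ), e.degree = m →
    ∃ g : Fin m → Fin (n + 2), ∀ v : Fin (n + 2) → Ω, ∏ k, v (g k) = ∏ i, v i ^ e i := by
  intro m
  induction m with
  | zero =>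
    intro e he
    refine ⟨Fin.elim0, fun v => ?_⟩
    rw [(Finsupp.degree_eq_zero_iff e).1 he]
    simp
  | succ m ih =>
    intro e he
    obtain ⟨i, hi⟩ : ∃ i, e i ≠ 0 := by
      by_contra h
      push Not at h
      have h1 : e = 0 := Finsupp.ext h
      rw [h1, map_zero] at he
      omega
    have h1 : e = (e - Finsupp.single i 1) + Finsupp.single i 1 :=
      (tsub_add_cancel_of_le (Finsupp.single_le_iff.2 (by omega))).symm
    obtain ⟨e', he'⟩ : ∃ e', e' = e - Finsupp.single i 1 := ⟨_, rfl⟩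
    rw [← he'] at h1
    obtain ⟨g, hg⟩ := ih e' (by
      rw [h1, map_add, Finsupp.degree_single] at he
      omega)
    refine ⟨Fin.cons i g, fun v => ?_⟩
    rw [Fin.prod_univ_succ, Fin.cons_zero]
    simp only [Fin.cons_succ]
    rw [hg, h1]
    simp only [Finsupp.add_apply, pow_add]
    rw [Finset.prod_mul_distrib, mul_comm]
    congr 1
    rw [Finset.prod_eq_single i]
    · simp
    · intro j _ hj
      rw [Finsupp.single_eq_of_ne hj, pow_zero]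
    · intro h
      exact absurd (Finset.mem_univ _) h

/-- the relations between the points of a cycle with null trace -/
theorem rel_forms {F : MvPolynomial (Fin (n + 2)) ℂ} {d m : ℕ} (hs : Sm F) (hF : F.IsHomogeneous d)
    (hm : m + n + 2 = d) {x c : Fin (n + 2) → K} (hx : aeval x F = 0)
    (hc : ∑ l, aeval x (pderiv l F) * c l = 1) (hK : Algebra.trdeg ℂ K = ((n : ℕ) : Cardinal))
    {f : (K →ₐ[ℂ] Ω) →₀ ℤ} (hf : NullTrace n f) (D : Fin n → Derivation ℂ Ω Ω)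
    (P : MvPolynomial (Fin (n + 2)) Ω) (hP : P.IsHomogeneous m) :
    ∑ σ ∈ f.support, ((f σ : Ω) * (rows (fun j => σ (c j)) (pt x σ) D).det) *
      eval (pt x σ) P = 0 := by
  classical
  have h1 : ∀ v : Fin (n + 2) → Ω, eval v P = ∑ e ∈ P.support, P.coeff e * ∏ i, v i ^ e i := by
    intro v
    rw [eval_eq']
  simp only [h1, Finset.mul_sum]
  rw [Finset.sum_comm]
  refine Finset.sum_eq_zero fun e he => ?_
  obtain ⟨g, hg⟩ := exists_idx (Ω := Ω) m e (by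
    have h2 := hP (mem_support_iff.1 he)
    rw [← h2, Finsupp.degree_eq_weight_one]
    rfl)
  have h2 := Pool.Agent.N162.HS.relations (m := m) hs hF hm hx hc hK hf D
    (fun k => LinearMap.proj (g k))
  have h3 : ∀ σ : K →ₐ[ℂ] Ω, ∏ k, (LinearMap.proj (R := Ω) (φ := fun _ : Fin (n + 2) => Ω) (g k))
      (fun j => σ (x j)) = ∏ i, pt x σ i ^ e i := by
    intro σ
    rw [← hg]
    rfl
  simp only [h3] at h2
  have h4 := congrArg (fun a => P.coeff e * a) h2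
  simp only [mul_zero, Finset.mul_sum] at h4
  rw [← h4]
  refine Finset.sum_congr rfl fun σ _ => ?_
  change _ * (P.coeff e * _) = P.coeff e * (_ * _)
  unfold pt
  ring

/-- vectors dual to the gradient -/
theorem exists_cc {F : MvPolynomial (Fin (n + 2)) ℂ} (hs : Sm F) {x c : Fin (n + 2) → K}
    (hgen : IntermediateField.adjoin ℂ (Set.range x) = ⊤)
    (hc : ∑ l, aeval x (pderiv l F) * c l = 1) :
    ∃ cc : (Fin (n + 2) → Ω) → Fin (n + 2) → Ω,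
      (∀ σ : K →ₐ[ℂ] Ω, cc (pt x σ) = fun l => σ (c l)) ∧
      ∀ p, p 0 = 1 → aeval p F = 0 → ∑ l, aeval p (pderiv l F) * cc p l = 1 := by
  classical
  have h1 : ∀ p : Fin (n + 2) → Ω, ∃ v : Fin (n + 2) → Ω,
      (∀ σ : K →ₐ[ℂ] Ω, pt x σ = p → v = fun l => σ (c l)) ∧
      (p 0 = 1 → aeval p F = 0 → ∑ l, aeval p (pderiv l F) * v l = 1) := by
    intro p
    by_cases hp : ∃ σ : K →ₐ[ℂ] Ω, pt x σ = p
    · obtain ⟨σ, rfl⟩ := hp
      refine ⟨fun l => σ (c l), fun τ hτ => ?_, fun _ _ => ?_⟩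
      · rw [pt_inj hgen hτ]
      · rw [← map_one σ, ← hc, map_sum]
        refine Finset.sum_congr rfl fun l _ => ?_
        rw [map_mul, pt_aeval]
    · by_cases hp0 : p 0 = 1
      · obtain ⟨v, hv⟩ := Pool.Agent.Y184.NT.exists_c hs (x := p) (j0 := 0)
          (by rw [hp0]; exact one_ne_zero)
        exact ⟨v, fun σ hσ => absurd ⟨σ, hσ⟩ hp, fun _ _ => hv⟩
      · exact ⟨0, fun σ hσ => absurd ⟨σ, hσ⟩ hp, fun h => absurd h hp0⟩
  choose cc hcc using h1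
  exact ⟨cc, fun σ => (hcc (pt x σ)).1 σ rfl, fun p => (hcc p).2⟩

/-- the cycle given by a curve -/
theorem one_cycle (hC1 : StC1) (hC2 : StC2) (hND : StND) [IsAlgClosed Ω]
    {F : MvPolynomial (Fin (n + 2)) ℂ} {d m : ℕ} (hn : 1 ≤ n) (hs : Sm F) (hF : F.IsHomogeneous d)
    (hm : m + n + 2 = d) (hF3 : eval (Pi.single (Fin.last (n + 1)) 1) F ≠ 0)
    {x : Fin (n + 2) → K} (hx0 : x 0 = 1)
    (hx : aeval x F = 0) (hgen : IntermediateField.adjoin ℂ (Set.range x) = ⊤)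
    (hK : Algebra.trdeg ℂ K = n) (hR : Relns F x) {D : Fin n → Derivation ℂ Ω Ω}
    {cc : (Fin (n + 2) → Ω) → Fin (n + 2) → Ω}
    (hcc : ∀ p, p 0 = 1 → aeval p F = 0 → ∑ l, aeval p (pderiv l F) * cc p l = 1)
    (C : Crv n Ω) (hne : cmp Ω F C.X ≠ 0) :
    ∃ z : (Fin (n + 2) → Ω) →₀ ℤ,
      (∀ σ : K →ₐ[ℂ] Ω, z (pt x σ) = mu C.X (cmp Ω F C.X) (pt x σ)) ∧
      (∀ p, z p ≠ 0 → ∃ σ : K →ₐ[ℂ] Ω, p = pt x σ) ∧ (∀ p, 0 ≤ z p) ∧
      (∀ p, z p ≠ 0 → C.On p) ∧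
      (∀ Q : Finset (Fin (n + 2) → Ω), ∑ p ∈ Q, z p ≤ (C.deg * d : ℕ)) ∧
      Rel m (fun p => (rows (cc p) p D).det) z ∧
      ∀ σ : K →ₐ[ℂ] Ω, C.On (pt x σ) → z (pt x σ) ≠ 0 := by
  classical
  have hcΩ : CharZero Ω := charZero_of_injective_algebraMap (algebraMap ℂ Ω).injective
  have hX := C.good
  obtain ⟨h1, h2, h3, h4⟩ := hC1 n Ω C.E C.X hX (cmp Ω F C.X) d hne (cmp_fin hX F) (cmp_inf hX hF)
  obtain ⟨z, hz⟩ : ∃ z : (Fin (n + 2) → Ω) →₀ ℤ, ∀ p, z p =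
      if p ∈ Set.range (pt x : (K →ₐ[ℂ] Ω) → Fin (n + 2) → Ω) then mu C.X (cmp Ω F C.X) p
      else 0 := by
    refine ⟨Finsupp.onFinset h3.toFinset (fun p =>
      if p ∈ Set.range (pt x : (K →ₐ[ℂ] Ω) → Fin (n + 2) → Ω) then mu C.X (cmp Ω F C.X) p
      else 0) ?_, fun p => rfl⟩
    intro p hp
    rw [Set.Finite.mem_toFinset]
    intro h5
    apply hp
    rw [h5, ite_self]
  have hzσ : ∀ σ : K →ₐ[ℂ] Ω, z (pt x σ) = mu C.X (cmp Ω F C.X) (pt x σ) := by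
    intro σ
    rw [hz, if_pos ⟨σ, rfl⟩]
  have hzr : ∀ p, z p ≠ 0 → ∃ σ : K →ₐ[ℂ] Ω, p = pt x σ := by
    intro p hp
    rw [hz] at hp
    by_contra h5
    apply hp
    rw [if_neg]
    rintro ⟨σ, rfl⟩
    exact h5 ⟨σ, rfl⟩
  have hzmu : ∀ p, z p ≠ 0 → mu C.X (cmp Ω F C.X) p ≠ 0 := by
    intro p hp
    obtain ⟨σ, rfl⟩ := hzr p hp
    rw [← hzσ]
    exact hp
  have hmu : ∀ p : Fin (n + 2) → Ω, mu C.X (cmp Ω F C.X) p ≠ 0 → p 0 = 1 ∧ aeval p F = 0 := by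
    intro p hp
    obtain ⟨v, hv, hv1⟩ := (h2 p).1 hp
    refine ⟨good_zero hX hv, (cmp_at hv).2 (Or.inr ?_)⟩
    omega
  refine ⟨z, hzσ, hzr, ?_, ?_, ?_, ?_, ?_⟩
  · intro p
    rw [hz]
    split_ifs
    · exact h1 p
    · exact le_rfl
  · intro p hp
    obtain ⟨v, hv, _⟩ := (h2 p).1 (hzmu p hp)
    exact ⟨v, hv⟩
  · intro Q
    refine le_trans (Finset.sum_le_sum fun p _ => ?_) (h4 Q)
    rw [hz]
    split_ifs
    · exact le_rfl
    · exact h1 p
  · intro P hP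
    have h5 := hC2 n Ω C.E F d m hn hs hF hm hF3 C.X hX hne D cc hcc P hP h3.toFinset
      (fun p hp => by
        rw [Set.Finite.mem_toFinset]
        exact hp)
    rw [Lam_of_subset _ _ _ (Q := h3.toFinset) (fun p hp => by
      rw [Set.Finite.mem_toFinset]
      exact hzmu p hp), ← h5]
    refine Finset.sum_congr rfl fun p hp => ?_
    rw [Set.Finite.mem_toFinset] at hp
    by_cases h6 : p ∈ Set.range (pt x : (K →ₐ[ℂ] Ω) → Fin (n + 2) → Ω)
    · rw [hz, if_pos h6]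
    · have h7 := hmu p hp
      have h8 : (rows (cc p) p D).det = 0 := by
        by_contra h9
        obtain ⟨σ, hσ⟩ := hND n K Ω F d x hn hs hF (by omega) hx0 hx hgen hK hR D p (cc p)
          h7.1 h7.2 h9
        exact h6 ⟨σ, funext hσ⟩
      rw [h8]
      ring
  · rintro σ ⟨v, hv⟩
    rw [hzσ, h2]
    refine ⟨v, hv, ?_⟩
    have h5 : aeval (pt x σ) F = 0 := by
      rw [pt_aeval, hx, map_zero]
    rcases (cmp_at hv).1 h5 with h6 | h6
    · exact absurd h6 hne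
    · omega

/-- finitely many points of the curves on a surface which contains none of them -/
theorem fin_clause (hC1 : StC1) (hALG : Pool.Agent.N162.CV.StALG) [IsAlgClosed Ω] [CharZero Ω]
    {r : ℕ} (C : Fin r → Crv n Ω) {A : Fin n → MvPolynomial (Fin 2) Ω}
    (hcov : ∀ p : Fin (n + 2) → Ω, p 0 = 1 → (∀ l : Fin n, eval ![p 1, p l.succ.succ] (A l) = 0) →
      ∃ i, (C i).On p) {t : Ω} {G : Fin r → MvPolynomial (Fin 2) Ω}
    (hG : ∀ i, Irreducible (G i))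
    (hGX : ∀ i, aeval (pr (algebraMap Ω (C i).E t) (C i).X) (G i) = 0)
    (P : MvPolynomial (Fin 2) Ω) (hP : ∀ i, ¬ G i ∣ P) :
    {p : Fin (n + 2) → Ω | p 0 = 1 ∧ (∀ l, eval ![p 1, p l.succ.succ] (A l) = 0) ∧
      eval (pr t p) P = 0}.Finite := by
  classical
  obtain ⟨Q, hQ, hQe⟩ := exists_form (n := n) t P.totalDegree P le_rfl
  have hQp : ∀ p : Fin (n + 2) → Ω, p 0 = 1 → eval p Q = eval (pr t p) P := by
    intro p hp
    exact hQe Ω p hp
  have hne : ∀ i, aeval (C i).X Q ≠ 0 := by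
    intro i h
    rw [hQe (C i).E (C i).X (C i).good.one] at h
    have hP0 : P ≠ 0 := by
      rintro rfl
      exact hP i (dvd_zero _)
    have h1 := hALG Ω (C i).E (G i) P (hG i).ne_zero hP0 (relPrime_of_not_dvd (hG i) (hP i))
      _ (hGX i) h 0
    exact (C i).good.tr h1
  have hkey := fun i => hC1 n Ω (C i).E (C i).X (C i).good (aeval (C i).X Q) P.totalDegree (hne i)
      (fun v hv => ge_aeval ((C i).good.fin v hv) _) (fun v hv => good_ord (C i).good hQ v hv)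
  have hfin : ∀ i, {p : Fin (n + 2) → Ω | mu (C i).X (aeval (C i).X Q) p ≠ 0}.Finite :=
    fun i => (hkey i).2.2.1
  refine (Set.finite_iUnion hfin).subset ?_
  rintro p ⟨hp0, hpA, hpP⟩
  obtain ⟨i, v, hv⟩ := hcov p hp0 hpA
  rw [Set.mem_iUnion]
  refine ⟨i, ?_⟩
  refine ((hkey i).2.1 p).2 ⟨v, hv, ?_⟩
  rcases ge_of_eval hv ((hQp p hp0).trans hpP) with h3 | h3
  · exact absurd h3 (hne i)
  · omega

end

theorem conf_ (hC1 : StC1) (hC2 : StC2) (hN : StN) (hND : StND) (hCUR : StCUR)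
    (hALG : Pool.Agent.N162.CV.StALG) : StCONF := by
  classical
  intro n K Ω _ _ _ _ _ F d m N hn hs hF hm hNm hNd hF3 x hx0 hx hgen hK hΩ hR f hf hcard A hA hAc
  have hcΩ : CharZero Ω := charZero_of_injective_algebraMap (algebraMap ℂ Ω).injective
  obtain ⟨c, hc⟩ := Pool.Agent.Y184.NT.exists_c hs (x := x) (j0 := 0)
    (by rw [hx0]; exact one_ne_zero)
  obtain ⟨y, hy⟩ := exists_tb (k := ℂ) (L := Ω) hΩ
  choose D hD using fun i : Fin n => Pool.Agent.W602.GT.exists_der y hy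
    fun j => if i = j then (1 : Ω) else 0
  obtain ⟨cc, hcc1, hcc2⟩ := exists_cc (Ω := Ω) hs hgen hc
  obtain ⟨κ, hκ⟩ : ∃ κ : (Fin (n + 2) → Ω) → Ω, κ = fun p => (rows (cc p) p D).det := ⟨_, rfl⟩
  have hκσ : ∀ σ : K →ₐ[ℂ] Ω, κ (pt x σ) =
      (rows (fun j => σ (c j)) (pt x σ) D).det := by
    intro σ
    rw [hκ]
    simp only
    rw [hcc1]
  have hκne : ∀ σ : K →ₐ[ℂ] Ω, κ (pt x σ) ≠ 0 := by
    intro σ
    rw [hκσ]
    exact Pool.Agent.N162.HS.rows_ne hF (by omega) hx hc hx0 hgen hK hΩ hy hD σ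
  have hx0σ : ∀ σ : K →ₐ[ℂ] Ω, pt x σ 0 = 1 := fun σ => by
    unfold pt
    rw [hx0, map_one]
  obtain ⟨r, C, hAX, hcov, hdis, hproj⟩ := hCUR n Ω A hn (fun l => (hA l).1) (fun l => (hA l).2.1)
  have hnoT : ∀ i, (C i).deg ≤ N → cmp Ω F (C i).X = 0 →
      ∀ σ : K →ₐ[ℂ] Ω, ¬ (C i).On (pt x σ) := by
    rintro i hiN hi σ ⟨v, hv⟩
    apply hκne σ
    rw [hκ]
    have hiN' : Module.finrank Ω⟮(C i).X 1⟯ (C i).E ≤ N := hiN
    exact hN n Ω (C i).E F d hn hs hF (C i).X (C i).good hi (by omega) D v (pt x σ)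
      (cc (pt x σ)) hv
  have hz : ∀ i, ∃ z : (Fin (n + 2) → Ω) →₀ ℤ, (N < (C i).deg ∨
        (cmp Ω F (C i).X = 0 ∧ z = 0) ∨ (cmp Ω F (C i).X ≠ 0 ∧
        ∀ σ : K →ₐ[ℂ] Ω, z (pt x σ) = mu (C i).X (cmp Ω F (C i).X) (pt x σ))) ∧
      (∀ p, z p ≠ 0 → ∃ σ : K →ₐ[ℂ] Ω, p = pt x σ) ∧ (∀ p, 0 ≤ z p) ∧
      (∀ p, z p ≠ 0 → (C i).On p) ∧
      (∀ Q : Finset (Fin (n + 2) → Ω), ∑ p ∈ Q, z p ≤ ((C i).deg * d : ℕ)) ∧
      Rel m κ z ∧
      ((C i).deg ≤ N → ∀ σ : K →ₐ[ℂ] Ω, (C i).On (pt x σ) → z (pt x σ) ≠ 0) := by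
    intro i
    by_cases hiN : N < (C i).deg
    · refine ⟨0, Or.inl hiN, fun p h => absurd rfl h, fun p => le_rfl,
        fun p h => absurd rfl h, fun Q => ?_, fun P _ => ?_,
        fun h => absurd h (not_le.2 hiN)⟩
      · simp only [Finsupp.coe_zero, Pi.zero_apply, Finset.sum_const_zero]
        positivity
      · unfold Lam
        rw [Finsupp.support_zero, Finset.sum_empty]
    by_cases hi : cmp Ω F (C i).X = 0
    · refine ⟨0, Or.inr (Or.inl ⟨hi, rfl⟩), fun p h => absurd rfl h, fun p => le_rfl,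
        fun p h => absurd rfl h, fun Q => ?_, fun P _ => ?_,
        fun h σ hσ => absurd hσ (hnoT i h hi σ)⟩
      · simp only [Finsupp.coe_zero, Pi.zero_apply, Finset.sum_const_zero]
        positivity
      · unfold Lam
        rw [Finsupp.support_zero, Finset.sum_empty]
    · obtain ⟨z, h1, h2, h3, h4, h5, h6, h7⟩ := one_cycle hC1 hC2 hND hn hs hF hm hF3 hx0 hx hgen
        hK hR hcc2 (D := D) (C i) hi
      rw [hκ]
      exact ⟨z, Or.inr (Or.inr ⟨hi, h1⟩), h2, h3, h4, h5, h6, fun _ => h7⟩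
  choose z hz1 hz2 hz3 hz4 hz5 hz6 hz7 using hz
  refine ⟨κ, r, C, z, f.embDomain (emb Ω hgen), hAX, hcov, hdis, emb_apply hgen f, ?_, ?_, hz2,
    hz1⟩
  · intro p hp
    obtain ⟨σ, h1, _⟩ := emb_ne hgen f hp
    exact ⟨σ, h1⟩
  refine ⟨hn, hm, hNm, hNd, ?_, ?_, ?_, fun l => (hA l).1, fun l => (hA l).2.1,
    fun l => (hA l).2.2, ?_, ?_, ?_, ?_, ?_, ?_, ?_⟩
  · intro p hp
    obtain ⟨σ, rfl, _⟩ := emb_ne hgen f hp
    exact ⟨hx0σ σ, hκne σ⟩
  · intro P hP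
    unfold Lam
    rw [Finsupp.support_embDomain, Finset.sum_map]
    rw [← rel_forms hs hF hm hx hc hK hf D P hP]
    refine Finset.sum_congr rfl fun σ _ => ?_
    have h1 : f.embDomain (emb Ω hgen) (pt x σ) = f σ := emb_apply hgen f σ
    change (f.embDomain (emb Ω hgen) (pt x σ) : Ω) * (κ (pt x σ) * eval (pt x σ) P) = _
    rw [h1, hκσ, mul_assoc]
  · rw [Finsupp.support_embDomain, Finset.card_map]
    exact hcard
  · intro p hp
    obtain ⟨σ, rfl, hσ⟩ := emb_ne hgen f hp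
    exact hAc σ hσ
  · intro i p hi hp hon
    obtain ⟨σ, rfl, hσ⟩ := emb_ne hgen f hp
    exact hz7 i hi σ hon
  · intro i p hp
    obtain ⟨σ, rfl⟩ := hz2 i p hp
    exact ⟨hx0σ σ, hκne σ, hz4 i _ hp⟩
  · exact hz3
  · exact hz5
  · exact hz6
  · intro Γ hΓ
    obtain ⟨bad, hbad⟩ := hproj Γ hΓ
    refine ⟨bad, fun t ht => ?_⟩
    obtain ⟨G, hG1, hG2, hG3⟩ := hbad t ht
    refine ⟨G, fun i => (hG1 i).1, fun i => (hG1 i).2.1, fun i => (hG1 i).2.2.1, hG2,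
      fun i p hp => ⟨fun h => hG3 i p hp h, ?_⟩, ?_⟩
    · rintro ⟨v, hv⟩
      refine eval_zero_of (at_pr hv t) ?_
      rw [(hG1 i).2.2.2]
      exact Ge.zero
    · intro P hP
      exact fin_clause hC1 hALG C hcov (fun i => (hG1 i).1) (fun i => (hG1 i).2.2.2) P hP

end Pool.Agent.N80.HN
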